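import Pool.Agent.V113.Gol.Gen
import Pool.Agent.V113.Gol.Massey

/-!
# Golodness when the square of the maximal ideal is a regular multiple of it
-/

set_option autoImplicit false

namespace Pool.Agent.V113.Gol2

open Pool.Agent.V113.Gol

universe u

variable {R : Type u} [CommRing R] {n : ℕ}

/-- The basis of the exterior algebra. -/
noncomputable def bas (R : Type u) [CommRing R] (n : ℕ) :
    Module.Basis (Finset (Fin n)) R (KK R n) := (Pi.basisFun R (Fin n)).ExteriorAlgebra

theorem mem_top_iff (a : Ideal R) (z : KK R n) :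
    z ∈ a • (⊤ : Submodule R (KK R n)) ↔ ∀ s, (bas R n).repr z s ∈ a := by
  constructor
  · intro h s
    refine Submodule.smul_induction_on h ?_ ?_
    · intro r hr y _
      rw [map_smul, Finsupp.smul_apply, smul_eq_mul]
      exact a.mul_mem_right _ hr
    · intro y y' hy hy'
      rw [map_add, Finsupp.add_apply]
      exact a.add_mem hy hy'
  · intro h
    rw [← (bas R n).sum_repr z]
    exact Submodule.sum_mem _ fun s _ => Submodule.smul_mem_smul (h s) trivial

theorem reg (l : R) (hl : ∀ r, l * r = 0 → r = 0) {z : KK R n} (h : l • z = 0) : z = 0 := by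
  rw [← (bas R n).repr.map_eq_zero_iff]
  ext s
  refine hl _ ?_
  have := DFunLike.congr_fun (congrArg (bas R n).repr h) s
  rwa [map_smul, map_zero, Finsupp.smul_apply, smul_eq_mul] at this

theorem divide (a : Ideal R) (l : R) (h2 : ∀ r ∈ a * a, ∃ c, r = l * c) {z : KK R n}
    (hz : z ∈ (a * a) • (⊤ : Submodule R (KK R n))) : ∃ w, z = l • w := by
  rw [mem_top_iff] at hz
  choose c hc using fun s => h2 _ (hz s)
  refine ⟨∑ s, c s • bas R n s, ?_⟩
  rw [← (bas R n).sum_repr z, Finset.smul_sum]
  exact Finset.sum_congr rfl fun s _ => by rw [hc s, mul_smul]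

theorem mul_mem_sq (a : Ideal R) {x y : KK R n} (hx : x ∈ a • (⊤ : Submodule R (KK R n)))
    (hy : y ∈ a • (⊤ : Submodule R (KK R n))) : x * y ∈ (a * a) • (⊤ : Submodule R (KK R n)) := by
  refine Submodule.smul_induction_on hx ?_ ?_
  · intro r hr a' _
    refine Submodule.smul_induction_on hy ?_ ?_
    · intro s hs b _
      rw [smul_mul_smul_comm]
      exact Submodule.smul_mem_smul (Ideal.mul_mem_mul hr hs) trivial
    · intro b c hb hc
      rw [mul_add]
      exact Submodule.add_mem _ hb hc
  · intro a' b ha hb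
    rw [add_mul]
    exact Submodule.add_mem _ ha hb

/-- unit vector in the exterior algebra -/
noncomputable def ee (j : Fin n) : KK R n := ExteriorAlgebra.ι R (Pi.single j 1)

/-- partial contraction -/
noncomputable def pd (j : Fin n) : KK R n →ₗ[R] KK R n := dd (Pi.single j (1 : R))

theorem pd_ee_mul (i j : Fin n) (b : KK R n) :
    pd i (ee j * b) = (if i = j then (1 : R) else 0) • b - ee j * pd i b := by
  have h : Fintype.linearCombination R (Pi.single i (1 : R)) (Pi.single j (1 : R)) =
      if i = j then (1 : R) else 0 := by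
    rw [Fintype.linearCombination_apply]
    simp only [Pi.single_apply, smul_eq_mul, mul_ite, mul_one, mul_zero]
    by_cases hij : i = j
    · subst hij
      simp
    · rw [if_neg hij]
      refine Finset.sum_eq_zero fun l _ => ?_
      by_cases hl : l = i
      · rw [if_pos hl, if_neg]
        rintro rfl
        exact hij hl.symm
      · rw [if_neg hl]
  have := Gen.dd_one_mul (Pi.single i (1 : R)) (Pi.single j (1 : R)) b
  rw [h] at this
  exact this

theorem dd_eq_sum (x : Fin n → R) (z : KK R n) : dd x z = ∑ j, x j • pd j z := by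
  have h : x = ∑ j, x j • Pi.single j (1 : R) := by
    funext l
    rw [Finset.sum_apply]
    simp [Pi.single_apply]
  have h2 : Fintype.linearCombination R x =
      ∑ j, x j • Fintype.linearCombination R (Pi.single j (1 : R)) := by
    conv_lhs => rw [h]
    apply LinearMap.ext
    intro v
    rw [Fintype.linearCombination_apply, LinearMap.sum_apply]
    simp only [LinearMap.smul_apply, Fintype.linearCombination_apply, Finset.sum_apply,
      Pi.smul_apply, Finset.mul_sum, smul_eq_mul]
    rw [Finset.sum_comm]
    refine Finset.sum_congr rfl fun a _ => Finset.sum_congr rfl fun b _ => ?_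
    ring
  unfold dd pd dd
  rw [h2, map_sum, LinearMap.sum_apply]
  refine Finset.sum_congr rfl fun j _ => ?_
  rw [map_smul, LinearMap.smul_apply]

theorem ee_swap (i j : Fin n) : (ee i * ee j : KK R n) = - (ee j * ee i) := by
  unfold ee
  have := ExteriorAlgebra.ι_add_mul_swap (R := R) (Pi.single i (1 : R) : Fin n → R) (Pi.single j 1)
  exact eq_neg_of_add_eq_zero_left this

theorem ee_sq (i : Fin n) : (ee i * ee i : KK R n) = 0 := ExteriorAlgebra.ι_sq_zero _

/-- the projection `∂_j e_j` -/
noncomputable def TT (j : Fin n) (z : KK R n) : KK R n := pd j (ee j * z)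

theorem TT_ee (j l : Fin n) (h : j ≠ l) (b : KK R n) : TT j (ee l * b) = ee l * TT j b := by
  unfold TT
  rw [← mul_assoc, ee_swap, neg_mul, map_neg, mul_assoc, pd_ee_mul, if_neg h, zero_smul, zero_sub,
    neg_neg]

theorem TT_self (j : Fin n) (b : KK R n) : TT j (ee j * b) = 0 := by
  unfold TT
  rw [← mul_assoc, ee_sq, zero_mul, map_zero]

/-- iterated projection -/
noncomputable def FF (L : List (Fin n)) (z : KK R n) : KK R n := L.foldr TT z

theorem TT_zero (j : Fin n) : TT j (0 : KK R n) = 0 := by
  unfold TT
  rw [mul_zero, map_zero]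

theorem TT_add (j : Fin n) (a b : KK R n) : TT j (a + b) = TT j a + TT j b := by
  unfold TT
  rw [mul_add, map_add]

theorem TT_smul (j : Fin n) (r : R) (b : KK R n) : TT j (r • b) = r • TT j b := by
  unfold TT
  rw [mul_smul_comm, map_smul]

theorem FF_zero (L : List (Fin n)) : FF L (0 : KK R n) = 0 := by
  induction L with
  | nil => rfl
  | cons a L ih => exact (congrArg (TT a) ih).trans (TT_zero a)

theorem FF_add (L : List (Fin n)) (a b : KK R n) : FF L (a + b) = FF L a + FF L b := by
  induction L with
  | nil => rfl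
  | cons l L ih => exact (congrArg (TT l) ih).trans (TT_add l _ _)

theorem FF_smul (L : List (Fin n)) (r : R) (b : KK R n) : FF L (r • b) = r • FF L b := by
  induction L with
  | nil => rfl
  | cons l L ih => exact (congrArg (TT l) ih).trans (TT_smul l _ _)

theorem FF_ee (L : List (Fin n)) (j : Fin n) (h : j ∉ L) (b : KK R n) :
    FF L (ee j * b) = ee j * FF L b := by
  induction L with
  | nil => rfl
  | cons l L ih =>
    rw [List.mem_cons, not_or] at h
    exact (congrArg (TT l) (ih h.2)).trans (TT_ee l j (Ne.symm h.1) _)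

theorem FF_ee_zero (L : List (Fin n)) (j : Fin n) (h : j ∈ L) (b : KK R n) :
    FF L (ee j * b) = 0 := by
  induction L with
  | nil => simp at h
  | cons l L ih =>
    by_cases h1 : j ∈ L
    · exact (congrArg (TT l) (ih h1)).trans (TT_zero l)
    · have h2 : j = l := by
        rcases List.mem_cons.1 h with h | h
        · exact h
        · exact absurd h h1
      subst h2
      exact (congrArg (TT j) (FF_ee L j h1 b)).trans (TT_self j _)

theorem ι_eq_sum (v : Fin n → R) : ExteriorAlgebra.ι R v = ∑ j, v j • (ee j : KK R n) := by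
  have h : v = ∑ j, v j • Pi.single j (1 : R) := by
    funext l
    rw [Finset.sum_apply]
    simp [Pi.single_apply]
  conv_lhs => rw [h]
  rw [map_sum]
  exact Finset.sum_congr rfl fun j _ => map_smul _ _ _

theorem FF_pos (i : ℕ) (z : KK R n) (hz : z ∈ (⋀[R]^(i + 1) (Fin n → R))) :
    FF (List.finRange n) z = 0 := by
  rw [ExteriorAlgebra.exteriorPower, pow_succ'] at hz
  refine Submodule.mul_induction_on hz ?_ ?_
  · rintro _ ⟨v, rfl⟩ b _
    rw [ι_eq_sum, Finset.sum_mul]
    have key : ∀ s : Finset (Fin n),
        FF (List.finRange n) (∑ j ∈ s, v j • (ee j : KK R n) * b) = 0 := by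
      intro s
      classical
      induction s using Finset.induction_on with
      | empty => rw [Finset.sum_empty, FF_zero]
      | insert a s ha ih =>
        rw [Finset.sum_insert ha, FF_add, ih, add_zero, smul_mul_assoc, FF_smul,
          FF_ee_zero _ _ (List.mem_finRange a), smul_zero]
    exact key _
  · intro a b ha hb
    rw [FF_add, ha, hb, add_zero]

theorem top_mul (a : Ideal R) (j : Fin n) {z : KK R n}
    (hz : z ∈ a • (⊤ : Submodule R (KK R n))) : ee j * z ∈ a • (⊤ : Submodule R (KK R n)) := by
  refine Submodule.smul_induction_on hz ?_ ?_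
  · intro r hr y _
    rw [mul_smul_comm]
    exact Submodule.smul_mem_smul hr trivial
  · intro y y' hy hy'
    rw [mul_add]
    exact Submodule.add_mem _ hy hy'

theorem top_pd (a : Ideal R) (j : Fin n) {z : KK R n}
    (hz : z ∈ a • (⊤ : Submodule R (KK R n))) : pd j z ∈ a • (⊤ : Submodule R (KK R n)) := by
  refine Submodule.smul_induction_on hz ?_ ?_
  · intro r hr y _
    rw [map_smul]
    exact Submodule.smul_mem_smul hr trivial
  · intro y y' hy hy'
    rw [map_add]
    exact Submodule.add_mem _ hy hy'

theorem FF_congr (a : Ideal R) (z : KK R n)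
    (h : ∀ j, pd j z ∈ a • (⊤ : Submodule R (KK R n))) (L : List (Fin n)) :
    z - FF L z ∈ a • (⊤ : Submodule R (KK R n)) := by
  induction L with
  | nil =>
    change z - z ∈ _
    rw [sub_self]
    exact Submodule.zero_mem _
  | cons l L ih =>
    change z - TT l (FF L z) ∈ _
    have h1 : TT l (z - FF L z) ∈ a • (⊤ : Submodule R (KK R n)) := top_pd a l (top_mul a l ih)
    have h2 : TT l z = z - ee l * pd l z := by
      unfold TT
      rw [pd_ee_mul, if_pos rfl, one_smul]
    have h3 : TT l (z - FF L z) = TT l z - TT l (FF L z) := by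
      unfold TT
      rw [mul_sub, map_sub]
    rw [h3, h2] at h1
    have h4 := Submodule.add_mem _ h1 (top_mul a l (h l))
    have h5 : z - ee l * pd l z - TT l (FF L z) + ee l * pd l z = z - TT l (FF L z) := by abel
    rwa [h5] at h4

theorem minimal (a : Ideal R) (i : ℕ) (z : KK R n) (hz : z ∈ (⋀[R]^(i + 1) (Fin n → R)))
    (h : ∀ j, pd j z ∈ a • (⊤ : Submodule R (KK R n))) : z ∈ a • (⊤ : Submodule R (KK R n)) := by
  have := FF_congr a z h (List.finRange n)
  rwa [FF_pos i z hz, sub_zero] at this

theorem cycle_mem (x : Fin n → R) (a : Ideal R)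
    (ha : ∀ r : Fin n → R, ∑ j, x j * r j ∈ a * a → ∀ j, r j ∈ a) (i : ℕ) (z : KK R n)
    (hz : z ∈ (⋀[R]^(i + 1) (Fin n → R))) (hd : dd x z = 0) :
    z ∈ a • (⊤ : Submodule R (KK R n)) := by
  refine minimal a i z hz fun j => ?_
  rw [mem_top_iff]
  intro s
  refine ha (fun j => (bas R n).repr (pd j z) s) ?_ j
  have h1 := DFunLike.congr_fun (congrArg (bas R n).repr hd) s
  rw [dd_eq_sum, map_sum, map_zero, Finsupp.finsetSum_apply] at h1
  have h2 : ∑ j, x j * (bas R n).repr (pd j z) s = 0 := by
    rw [← h1.trans (by rfl : (0 : Finset (Fin n) →₀ R) s = 0)]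
    refine Finset.sum_congr rfl fun j _ => ?_
    rw [map_smul, Finsupp.smul_apply, smul_eq_mul]
  rw [h2]
  exact Ideal.zero_mem _

end Pool.Agent.V113.Gol2
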