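import Pool.Agent.V113.Gol2.Gen

/-!
# Trivial Massey operations when the square of the maximal ideal is a regular multiple of it
-/

set_option autoImplicit false

namespace Pool.Agent.V113.Gol2

open Pool.Agent.V113.Gol

universe u

section basis

variable (k : Type u) [Field k] {R : Type u} [CommRing R] [Algebra k R] {n : ℕ} (xs : Fin n → R)

theorem exists_isBasis : ∃ (B : Type u) (deg : B → ℕ) (rep : B → KK R n),
    IsBasis xs k deg rep := by
  classical
  let ι : ℕ → Type u := fun i => Module.Basis.ofVectorSpaceIndex k (Z k xs i ⧸ Bd k xs i)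
  let bs : ∀ i, Module.Basis (ι i) k (Z k xs i ⧸ Bd k xs i) := fun i =>
    Module.Basis.ofVectorSpace k (Z k xs i ⧸ Bd k xs i)
  have hrep : ∀ i : ℕ, ∀ x : ι (i + 1), ∃ z : Z k xs (i + 1),
      (Submodule.Quotient.mk z : Z k xs (i + 1) ⧸ Bd k xs (i + 1)) = bs (i + 1) x := fun i x =>
    Submodule.Quotient.mk_surjective _ _
  choose rep hrep1 using hrep
  let B : Type u := Σ i : ℕ, ι (i + 1)
  let deg : B → ℕ := fun b => b.1 + 1
  let μ : B → KK R n := fun b => (rep b.1 b.2 : KK R n)
  refine ⟨B, deg, μ, ?_, ?_⟩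
  · rintro ⟨i, x⟩
    exact ⟨by change 1 ≤ i + 1; omega, (rep i x).2.1, (rep i x).2.2⟩
  · rintro i z hi ⟨hz, hdz⟩
    obtain ⟨j, rfl⟩ : ∃ j, i = j + 1 := ⟨i - 1, by omega⟩
    let e : ι (j + 1) ≃ {b : B // deg b = j + 1} :=
      { toFun := fun x => ⟨⟨j, x⟩, rfl⟩
        invFun := fun b => (show b.1.1 = j from by
          have := b.2
          change b.1.1 + 1 = j + 1 at this
          omega) ▸ b.1.2
        left_inv := fun x => rfl
        right_inv := by
          rintro ⟨⟨i, x⟩, hb⟩
          change i + 1 = j + 1 at hb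
          obtain rfl : i = j := by omega
          rfl }
    let bb : Module.Basis {b : B // deg b = j + 1} k (Z k xs (j + 1) ⧸ Bd k xs (j + 1)) :=
      (bs (j + 1)).reindex e
    have hmem : ∀ b : {b : B // deg b = j + 1}, μ b.1 ∈ Z k xs (j + 1) := by
      rintro ⟨⟨i, x⟩, hb⟩
      change i + 1 = j + 1 at hb
      obtain rfl : i = j := by omega
      exact (rep i x).2
    have hbb : ∀ b : {b : B // deg b = j + 1}, bb b = Submodule.Quotient.mk ⟨μ b.1, hmem b⟩ := by
      rintro ⟨⟨i, x⟩, hb⟩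
      change i + 1 = j + 1 at hb
      obtain rfl : i = j := by omega
      rw [Module.Basis.reindex_apply]
      exact (hrep1 i x).symm
    have hsum : ∀ c : {b : B // deg b = j + 1} →₀ k,
        ((c.sum fun b a => a • (⟨μ b.1, hmem b⟩ : Z k xs (j + 1)) : Z k xs (j + 1)) : KK R n) =
          c.sum fun b a => a • μ b.1 := by
      intro c
      rw [Finsupp.sum, Finsupp.sum, AddSubmonoidClass.coe_finsetSum]
      rfl
    have hq : ∀ c : {b : B // deg b = j + 1} →₀ k,
        (Submodule.Quotient.mk (c.sum fun b a => a • (⟨μ b.1, hmem b⟩ : Z k xs (j + 1))) :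
          Z k xs (j + 1) ⧸ Bd k xs (j + 1)) = bb.repr.symm c := by
      intro c
      rw [Module.Basis.repr_symm_apply, Finsupp.linearCombination_apply]
      change (Bd k xs (j + 1)).mkQ _ = _
      rw [Finsupp.sum, Finsupp.sum, map_sum]
      refine Finset.sum_congr rfl fun b _ => ?_
      rw [hbb, map_smul]
      rfl
    let z' : Z k xs (j + 1) := ⟨z, hz, hdz⟩
    have key : ∀ c : {b : B // deg b = j + 1} →₀ k,
        (∃ w ∈ (⋀[R]^(j + 1 + 1) (Fin n → R)), z = (c.sum fun b a => a • μ b.1) + dd xs w) ↔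
          c = bb.repr (Submodule.Quotient.mk z') := by
      intro c
      rw [← LinearEquiv.symm_apply_eq, ← hq, eq_comm, Submodule.Quotient.eq]
      constructor
      · rintro ⟨w, hw, h1⟩
        refine ⟨w, hw, ?_⟩
        change dd xs w = z - ((c.sum fun b a => a • (⟨μ b.1, hmem b⟩ : Z k xs (j + 1)) :
          Z k xs (j + 1)) : KK R n)
        rw [hsum]
        exact (sub_eq_of_eq_add' h1).symm
      · rintro ⟨w, hw, h1⟩
        refine ⟨w, hw, ?_⟩
        change dd xs w = z - ((c.sum fun b a => a • (⟨μ b.1, hmem b⟩ : Z k xs (j + 1)) :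
          Z k xs (j + 1)) : KK R n) at h1
        rw [hsum] at h1
        rw [h1]
        abel
    exact ⟨bb.repr (Submodule.Quotient.mk z'), (key _).2 rfl, fun c hc => (key c).1 hc⟩

end basis

section

variable {R : Type u} [CommRing R] {n : ℕ}

theorem ι_comm (v : Fin n → R) (p : ℕ) (b : KK R n) (hb : b ∈ (⋀[R]^p (Fin n → R))) :
    b * ExteriorAlgebra.ι R v = (-1 : R) ^ p • (ExteriorAlgebra.ι R v * b) := by
  induction p generalizing b with
  | zero =>
    rw [ExteriorAlgebra.exteriorPower, pow_zero, Submodule.mem_one] at hb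
    obtain ⟨r, rfl⟩ := hb
    rw [pow_zero, one_smul, Algebra.commutes]
  | succ p ih =>
    rw [ExteriorAlgebra.exteriorPower, pow_succ'] at hb
    refine Submodule.mul_induction_on hb ?_ ?_
    · rintro _ ⟨u, rfl⟩ c hc
      have h1 : ExteriorAlgebra.ι R u * ExteriorAlgebra.ι R v =
          - (ExteriorAlgebra.ι R v * ExteriorAlgebra.ι R u) :=
        eq_neg_of_add_eq_zero_left (ExteriorAlgebra.ι_add_mul_swap (R := R) u v)
      rw [mul_assoc, ih c hc, mul_smul_comm, ← mul_assoc, h1, pow_succ, mul_neg_one, neg_smul,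
        ← smul_neg, neg_mul, mul_assoc]
    · intro a b ha hb
      rw [add_mul, ha, hb, mul_add, smul_add]

theorem dd_mul_of (x : Fin n → R) (p : ℕ) (b c : KK R n) (hb : b ∈ (⋀[R]^p (Fin n → R))) :
    dd x (b * c) = dd x b * c + (-1 : R) ^ p • (b * dd x c) := by
  induction p generalizing b with
  | zero =>
    rw [ExteriorAlgebra.exteriorPower, pow_zero, Submodule.mem_one] at hb
    obtain ⟨r, rfl⟩ := hb
    have h1 : dd x (algebraMap R (KK R n) r) = 0 := CliffordAlgebra.contractLeft_algebraMap _ _ _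
    rw [h1, zero_mul, zero_add, pow_zero, one_smul, ← Algebra.smul_def, map_smul, Algebra.smul_def]
  | succ p ih =>
    rw [ExteriorAlgebra.exteriorPower, pow_succ'] at hb
    refine Submodule.mul_induction_on hb ?_ ?_
    · rintro _ ⟨u, rfl⟩ d hd
      rw [mul_assoc, Gen.dd_one_mul, ih d hd, Gen.dd_one_mul, sub_mul, smul_mul_assoc, mul_add,
        mul_assoc, pow_succ, mul_neg_one, neg_smul, mul_smul_comm, mul_assoc]
      abel
    · intro a b ha hb
      rw [add_mul, map_add, map_add, ha, hb, add_mul, add_mul, smul_add]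
      abel

theorem mul_mem_pow (p q : ℕ) {b c : KK R n} (hb : b ∈ (⋀[R]^p (Fin n → R)))
    (hc : c ∈ (⋀[R]^q (Fin n → R))) : b * c ∈ (⋀[R]^(p + q) (Fin n → R)) := by
  rw [ExteriorAlgebra.exteriorPower, pow_add]
  exact Submodule.mul_mem_mul hb hc

/-- division in a fixed degree -/
theorem divide_deg (l : R) (hl : ∀ r, l * r = 0 → r = 0) (p : ℕ) {z w : KK R n}
    (hz : z ∈ (⋀[R]^p (Fin n → R))) (h : z = l • w) : w ∈ (⋀[R]^p (Fin n → R)) := by
  classical
  have h1 : GradedAlgebra.proj (fun i => ⋀[R]^i (Fin n → R)) p z = z := by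
    rw [GradedAlgebra.proj_apply]
    exact DirectSum.decompose_of_mem_same _ hz
  have h2 : l • (w - GradedAlgebra.proj (fun i => ⋀[R]^i (Fin n → R)) p w) = 0 := by
    rw [smul_sub, ← map_smul, ← h, h1, sub_self]
  have h3 := sub_eq_zero.1 (reg l hl h2)
  rw [h3, GradedAlgebra.proj_apply]
  exact SetLike.coe_mem _

end

section main

variable (k : Type u) [Field k] {R : Type u} [CommRing R] [Algebra k R] {n : ℕ} (x : Fin n → R)

theorem golod_reg (v : Fin n → R) (a : Ideal R)
    (hl : ∀ r, Fintype.linearCombination R x v * r = 0 → r = 0)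
    (h2 : ∀ r ∈ a * a, ∃ c, r = Fintype.linearCombination R x v * c)
    (ha : ∀ r : Fin n → R, ∑ j, x j * r j ∈ a * a → ∀ j, r j ∈ a) : HasTrivialMassey x k := by
  classical
  obtain ⟨B, deg, rep, hB⟩ := exists_isBasis k x
  set l := Fintype.linearCombination R x v with hl0
  have hmem : ∀ b, rep b ∈ a • (⊤ : Submodule R (KK R n)) := by
    intro b
    obtain ⟨h1, h3, h4⟩ := hB.1 b
    obtain ⟨i, hi⟩ : ∃ i, deg b = i + 1 := ⟨deg b - 1, by omega⟩
    rw [hi] at h3
    exact cycle_mem x a ha i _ h3 h4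
  have hw : ∀ b c, ∃ w, rep b * rep c = l • w := fun b c =>
    divide a l h2 (mul_mem_sq a (hmem b) (hmem c))
  choose ww hww using hw
  have hwdeg : ∀ b c, ww b c ∈ (⋀[R]^(deg b + deg c) (Fin n → R)) := fun b c =>
    divide_deg l hl _ (mul_mem_pow _ _ (hB.1 b).2.1 (hB.1 c).2.1) (hww b c)
  have hwd : ∀ b c, dd x (ww b c) = 0 := by
    intro b c
    refine reg l hl ?_
    rw [← map_smul, ← hww, dd_mul_of x _ _ _ (hB.1 b).2.1, (hB.1 b).2.2, (hB.1 c).2.2, zero_mul,
      mul_zero, smul_zero, add_zero]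
  have hass : ∀ b c d, rep b * ww c d = ww b c * rep d := by
    intro b c d
    rw [← sub_eq_zero]
    refine reg l hl ?_
    rw [smul_sub, ← mul_smul_comm, ← hww, ← smul_mul_assoc, ← hww, mul_assoc, sub_self]
  let e : KK R n := ExteriorAlgebra.ι R v
  have he : ∀ (p : ℕ) (b : KK R n), b ∈ (⋀[R]^p (Fin n → R)) →
      b * e = (-1 : R) ^ p • (e * b) := fun p b hb => ι_comm v p b hb
  have hee : e * e = 0 := ExteriorAlgebra.ι_sq_zero _
  let μ : List B → KK R n := fun w => match w with
    | [b] => rep b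
    | [b, c] => (-1 : R) ^ (1 + deg b) • (e * ww b c)
    | _ => 0
  have hμ1 : ∀ b, μ [b] = rep b := fun b => rfl
  have hμ2 : ∀ b c, μ [b, c] = (-1 : R) ^ (1 + deg b) • (e * ww b c) := fun b c => rfl
  have hμ3 : ∀ w : List B, 3 ≤ w.length → μ w = 0 := by
    intro w hw
    match w, hw with
    | [], hw => simp at hw
    | [a], hw => simp at hw
    | [a, b], hw => simp at hw
    | a :: b :: c :: l, hw => rfl
  refine ⟨B, deg, μ, hB, ?_⟩
  intro w hw
  match w, hw with
  | [], hw => simp at hw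
  | [b], hw => simp at hw
  | [b, c], hw =>
    have hm : mdeg deg [b, c] = 1 + (deg b + deg c) := by
      simp [mdeg]
      omega
    refine ⟨?_, ?_⟩
    · rw [hm, hμ2]
      refine Submodule.smul_mem _ _ (mul_mem_pow 1 _ ?_ (hwdeg b c))
      rw [ExteriorAlgebra.exteriorPower, pow_one]
      exact LinearMap.mem_range_self _ _
    · have h5 : Finset.Ico 1 [b, c].length = {1} := rfl
      have h6 : mdeg deg [b] = deg b := by simp [mdeg]
      rw [h5, Finset.sum_singleton, hμ2]
      change _ = (-1 : KK R n) ^ (1 + mdeg deg [b]) * (μ [b] * μ [c])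
      rw [h6, hμ1, hμ1, map_smul, Gen.dd_one_mul, hwd, mul_zero, sub_zero, ← hl0, ← hww,
        Algebra.smul_def, map_pow, map_neg, map_one]
  | [b, c, d], hw =>
    rw [hμ3 [b, c, d] (by simp)]
    refine ⟨Submodule.zero_mem _, ?_⟩
    have h5 : Finset.Ico 1 [b, c, d].length = {1, 2} := rfl
    have h6 : mdeg deg [b] = deg b := by simp [mdeg]
    have h7 : mdeg deg [b, c] = deg b + deg c + 1 := by
      simp [mdeg]
    rw [h5, Finset.sum_pair (by norm_num), map_zero]
    change _ = (-1 : KK R n) ^ (1 + mdeg deg [b]) * (μ [b] * μ [c, d]) +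
      (-1 : KK R n) ^ (1 + mdeg deg [b, c]) * (μ [b, c] * μ [d])
    rw [h6, h7, hμ1, hμ1, hμ2, hμ2, mul_smul_comm, ← mul_assoc (rep b), he _ _ (hB.1 b).2.1,
      smul_mul_assoc, smul_mul_assoc, mul_assoc e, mul_assoc e, hass]
    have hs : ∀ (p : ℕ) (z : KK R n), (-1 : KK R n) ^ p * z = (-1 : R) ^ p • z := by
      intro p z
      rw [Algebra.smul_def, map_pow, map_neg, map_one]
    rw [hs, hs, smul_smul, smul_smul, smul_smul, ← add_smul]
    have hz : (-1 : R) ^ (1 + deg b) * (-1) ^ (1 + deg c) * (-1) ^ deg b +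
        (-1) ^ (1 + (deg b + deg c + 1)) * (-1) ^ (1 + deg b) = 0 := by
      ring
    rw [hz, zero_smul]
  | b :: c :: d :: f :: L, hw =>
    rw [hμ3 (b :: c :: d :: f :: L) (by simp)]
    refine ⟨Submodule.zero_mem _, ?_⟩
    rw [map_zero]
    symm
    refine Finset.sum_eq_zero fun j hj => ?_
    rw [Finset.mem_Ico] at hj
    have h8 : μ (List.take j (b :: c :: d :: f :: L)) * μ (List.drop j (b :: c :: d :: f :: L)) =
        0 := by
      by_cases h3 : 3 ≤ j
      · rw [hμ3 (List.take j (b :: c :: d :: f :: L)) (by rw [List.length_take]; omega), zero_mul]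
      · by_cases h4 : 3 ≤ (List.drop j (b :: c :: d :: f :: L)).length
        · rw [hμ3 _ h4, mul_zero]
        · rw [List.length_drop] at h4
          simp only [List.length_cons] at h4
          have hj2 : j = 2 := by omega
          have hL : L = [] := List.length_eq_zero_iff.1 (by omega)
          subst hj2
          subst hL
          change μ [b, c] * μ [d, f] = 0
          rw [hμ2, hμ2, smul_mul_smul_comm, mul_assoc, ← mul_assoc (ww b c), he _ _ (hwdeg b c),
            smul_mul_assoc, mul_smul_comm, ← mul_assoc, ← mul_assoc, hee, zero_mul, zero_mul,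
            smul_zero, smul_zero]
    rw [h8, mul_zero]

end main

end Pool.Agent.V113.Gol2
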