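import Pool.Agent.V113.Gol2.Stmt
import Pool.Agent.V113.Gol2.Mas
import Pool.Agent.V113.Gol.Ex

/-!
# The ring of the `3 × 6` Hankel matrix modulo its two by two permanents
-/

set_option autoImplicit false

namespace Pool.Agent.V113.Gol2

open Pool.Agent.V113.Gol MvPolynomial

universe u

variable (k : Type u) [Field k]

/-- the Hankel matrix -/
noncomputable def HH : Matrix (Fin 3) (Fin 6) (MvPolynomial (Fin 8) k) := Stmt.hankel k 3 6

/-- the ideal -/
noncomputable def II : Ideal (MvPolynomial (Fin 8) k) := Stmt.P2 (HH k)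

variable {k}

theorem HH_apply (i : Fin 3) (j : Fin 6) (h : i.1 + j.1 < 8) :
    HH k i j = X ⟨i.1 + j.1, h⟩ := rfl

/-- the class of a variable -/
noncomputable def xx (i : Fin 8) : Q (II k) := Ideal.Quotient.mk (II k) (X i)

theorem rel (a b c d : Fin 8) (i i' : Fin 3) (j j' : Fin 6) (hi : i < i') (hj : j < j')
    (ha : i.1 + j.1 = a.1) (hb : i'.1 + j'.1 = b.1) (hc : i.1 + j'.1 = c.1)
    (hd : i'.1 + j.1 = d.1) : (xx a : Q (II k)) * xx b + xx c * xx d = 0 := by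
  have h : X a * X b + X c * X d ∈ II k := by
    refine Ideal.subset_span ⟨i, i', j, j', hi, hj, ?_⟩
    rw [HH_apply _ _ (by omega), HH_apply _ _ (by omega), HH_apply _ _ (by omega),
      HH_apply _ _ (by omega)]
    have ea : a = ⟨i.1 + j.1, by omega⟩ := Fin.ext ha.symm
    have eb : b = ⟨i'.1 + j'.1, by omega⟩ := Fin.ext hb.symm
    have ec : c = ⟨i.1 + j'.1, by omega⟩ := Fin.ext hc.symm
    have ed : d = ⟨i'.1 + j.1, by omega⟩ := Fin.ext hd.symm
    rw [← ea, ← eb, ← ec, ← ed]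
  have := Ideal.Quotient.eq_zero_iff_mem.2 h
  rwa [map_add, map_mul, map_mul] at this

theorem two_cancel (h2 : (2 : k) ≠ 0) {r : Q (II k)} (h : 2 * r = 0) : r = 0 := by
  have h1 : algebraMap k (Q (II k)) 2⁻¹ * 2 = 1 := by
    have : (2 : Q (II k)) = algebraMap k (Q (II k)) 2 := by rw [map_ofNat]
    rw [this, ← map_mul, inv_mul_cancel₀ h2, map_one]
  calc r = (algebraMap k (Q (II k)) 2⁻¹ * 2) * r := by rw [h1, one_mul]
    _ = algebraMap k (Q (II k)) 2⁻¹ * (2 * r) := by ring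
    _ = 0 := by rw [h, mul_zero]

theorem z22 (h2 : (2 : k) ≠ 0) : (xx 2 : Q (II k)) * xx 2 = 0 := by
  have r1 := rel (k := k) 1 3 2 2 0 1 1 2 (by decide) (by decide) rfl rfl rfl rfl
  have r2 := rel (k := k) 0 4 3 1 0 1 0 3 (by decide) (by decide) rfl rfl rfl rfl
  have r3 := rel (k := k) 0 4 2 2 0 2 0 2 (by decide) (by decide) rfl rfl rfl rfl
  refine two_cancel h2 ?_
  linear_combination r3 + r1 - r2

theorem z04 (h2 : (2 : k) ≠ 0) : (xx 0 : Q (II k)) * xx 4 = 0 := by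
  have r3 := rel (k := k) 0 4 2 2 0 2 0 2 (by decide) (by decide) rfl rfl rfl rfl
  linear_combination r3 - z22 h2

theorem z13 (h2 : (2 : k) ≠ 0) : (xx 1 : Q (II k)) * xx 3 = 0 := by
  have r1 := rel (k := k) 1 3 2 2 0 1 1 2 (by decide) (by decide) rfl rfl rfl rfl
  linear_combination r1 - z22 h2

theorem z33 (h2 : (2 : k) ≠ 0) : (xx 3 : Q (II k)) * xx 3 = 0 := by
  have r1 := rel (k := k) 2 4 3 3 0 1 2 3 (by decide) (by decide) rfl rfl rfl rfl
  have r2 := rel (k := k) 1 5 4 2 0 1 1 4 (by decide) (by decide) rfl rfl rfl rfl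
  have r3 := rel (k := k) 1 5 3 3 0 2 1 3 (by decide) (by decide) rfl rfl rfl rfl
  refine two_cancel h2 ?_
  linear_combination r3 + r1 - r2

theorem z15 (h2 : (2 : k) ≠ 0) : (xx 1 : Q (II k)) * xx 5 = 0 := by
  have r3 := rel (k := k) 1 5 3 3 0 2 1 3 (by decide) (by decide) rfl rfl rfl rfl
  linear_combination r3 - z33 h2

theorem z24 (h2 : (2 : k) ≠ 0) : (xx 2 : Q (II k)) * xx 4 = 0 := by
  have r1 := rel (k := k) 2 4 3 3 0 1 2 3 (by decide) (by decide) rfl rfl rfl rfl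
  linear_combination r1 - z33 h2

theorem z44 (h2 : (2 : k) ≠ 0) : (xx 4 : Q (II k)) * xx 4 = 0 := by
  have r1 := rel (k := k) 3 5 4 4 0 1 3 4 (by decide) (by decide) rfl rfl rfl rfl
  have r2 := rel (k := k) 2 6 5 3 0 1 2 5 (by decide) (by decide) rfl rfl rfl rfl
  have r3 := rel (k := k) 2 6 4 4 0 2 2 4 (by decide) (by decide) rfl rfl rfl rfl
  refine two_cancel h2 ?_
  linear_combination r3 + r1 - r2

theorem z26 (h2 : (2 : k) ≠ 0) : (xx 2 : Q (II k)) * xx 6 = 0 := by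
  have r3 := rel (k := k) 2 6 4 4 0 2 2 4 (by decide) (by decide) rfl rfl rfl rfl
  linear_combination r3 - z44 h2

theorem z35 (h2 : (2 : k) ≠ 0) : (xx 3 : Q (II k)) * xx 5 = 0 := by
  have r1 := rel (k := k) 3 5 4 4 0 1 3 4 (by decide) (by decide) rfl rfl rfl rfl
  linear_combination r1 - z44 h2

theorem z55 (h2 : (2 : k) ≠ 0) : (xx 5 : Q (II k)) * xx 5 = 0 := by
  have r1 := rel (k := k) 4 6 5 5 0 1 4 5 (by decide) (by decide) rfl rfl rfl rfl
  have r2 := rel (k := k) 3 7 6 4 1 2 2 5 (by decide) (by decide) rfl rfl rfl rfl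
  have r3 := rel (k := k) 3 7 5 5 0 2 3 5 (by decide) (by decide) rfl rfl rfl rfl
  refine two_cancel h2 ?_
  linear_combination r3 + r1 - r2

theorem z37 (h2 : (2 : k) ≠ 0) : (xx 3 : Q (II k)) * xx 7 = 0 := by
  have r3 := rel (k := k) 3 7 5 5 0 2 3 5 (by decide) (by decide) rfl rfl rfl rfl
  linear_combination r3 - z55 h2

theorem z46 (h2 : (2 : k) ≠ 0) : (xx 4 : Q (II k)) * xx 6 = 0 := by
  have r1 := rel (k := k) 4 6 5 5 0 1 4 5 (by decide) (by decide) rfl rfl rfl rfl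
  linear_combination r1 - z55 h2

theorem z23 (h2 : (2 : k) ≠ 0) : (xx 2 : Q (II k)) * xx 3 = 0 := by
  have r1 := rel (k := k) 1 4 3 2 0 1 1 3 (by decide) (by decide) rfl rfl rfl rfl
  have r2 := rel (k := k) 0 5 4 1 0 1 0 4 (by decide) (by decide) rfl rfl rfl rfl
  have r3 := rel (k := k) 0 5 3 2 0 2 0 3 (by decide) (by decide) rfl rfl rfl rfl
  refine two_cancel h2 ?_
  linear_combination r3 + r1 - r2

theorem z05 (h2 : (2 : k) ≠ 0) : (xx 0 : Q (II k)) * xx 5 = 0 := by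
  have r3 := rel (k := k) 0 5 3 2 0 2 0 3 (by decide) (by decide) rfl rfl rfl rfl
  linear_combination r3 - z23 h2

theorem z14 (h2 : (2 : k) ≠ 0) : (xx 1 : Q (II k)) * xx 4 = 0 := by
  have r1 := rel (k := k) 1 4 3 2 0 1 1 3 (by decide) (by decide) rfl rfl rfl rfl
  linear_combination r1 - z23 h2

theorem z34 (h2 : (2 : k) ≠ 0) : (xx 3 : Q (II k)) * xx 4 = 0 := by
  have r1 := rel (k := k) 2 5 4 3 0 1 2 4 (by decide) (by decide) rfl rfl rfl rfl
  have r2 := rel (k := k) 1 6 5 2 0 1 1 5 (by decide) (by decide) rfl rfl rfl rfl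
  have r3 := rel (k := k) 1 6 4 3 0 2 1 4 (by decide) (by decide) rfl rfl rfl rfl
  refine two_cancel h2 ?_
  linear_combination r3 + r1 - r2

theorem z16 (h2 : (2 : k) ≠ 0) : (xx 1 : Q (II k)) * xx 6 = 0 := by
  have r3 := rel (k := k) 1 6 4 3 0 2 1 4 (by decide) (by decide) rfl rfl rfl rfl
  linear_combination r3 - z34 h2

theorem z25 (h2 : (2 : k) ≠ 0) : (xx 2 : Q (II k)) * xx 5 = 0 := by
  have r1 := rel (k := k) 2 5 4 3 0 1 2 4 (by decide) (by decide) rfl rfl rfl rfl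
  linear_combination r1 - z34 h2

theorem z45 (h2 : (2 : k) ≠ 0) : (xx 4 : Q (II k)) * xx 5 = 0 := by
  have r1 := rel (k := k) 3 6 5 4 0 1 3 5 (by decide) (by decide) rfl rfl rfl rfl
  have r2 := rel (k := k) 2 7 6 3 1 2 1 5 (by decide) (by decide) rfl rfl rfl rfl
  have r3 := rel (k := k) 2 7 5 4 0 2 2 5 (by decide) (by decide) rfl rfl rfl rfl
  refine two_cancel h2 ?_
  linear_combination r3 + r1 - r2

theorem z27 (h2 : (2 : k) ≠ 0) : (xx 2 : Q (II k)) * xx 7 = 0 := by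
  have r3 := rel (k := k) 2 7 5 4 0 2 2 5 (by decide) (by decide) rfl rfl rfl rfl
  linear_combination r3 - z45 h2

theorem z36 (h2 : (2 : k) ≠ 0) : (xx 3 : Q (II k)) * xx 6 = 0 := by
  have r1 := rel (k := k) 3 6 5 4 0 1 3 5 (by decide) (by decide) rfl rfl rfl rfl
  linear_combination r1 - z45 h2

theorem z06 (h2 : (2 : k) ≠ 0) : (xx 0 : Q (II k)) * xx 6 = 0 := by
  have r1 := rel (k := k) 0 6 5 1 0 1 0 5 (by decide) (by decide) rfl rfl rfl rfl
  linear_combination r1 - z15 h2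

theorem z17 (h2 : (2 : k) ≠ 0) : (xx 1 : Q (II k)) * xx 7 = 0 := by
  have r1 := rel (k := k) 1 7 6 2 1 2 0 5 (by decide) (by decide) rfl rfl rfl rfl
  linear_combination r1 - z26 h2

theorem z07 (h2 : (2 : k) ≠ 0) : (xx 0 : Q (II k)) * xx 7 = 0 := by
  have r1 := rel (k := k) 0 7 5 2 0 2 0 5 (by decide) (by decide) rfl rfl rfl rfl
  linear_combination r1 - z25 h2

theorem n11 : (xx 1 : Q (II k)) * xx 1 = - (xx 0 * xx 2) := by
  have r1 := rel (k := k) 0 2 1 1 0 1 0 1 (by decide) (by decide) rfl rfl rfl rfl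
  linear_combination r1

theorem n12 : (xx 1 : Q (II k)) * xx 2 = - (xx 0 * xx 3) := by
  have r1 := rel (k := k) 0 3 2 1 0 1 0 2 (by decide) (by decide) rfl rfl rfl rfl
  linear_combination r1

theorem n66 : (xx 6 : Q (II k)) * xx 6 = - (xx 5 * xx 7) := by
  have r1 := rel (k := k) 5 7 6 6 1 2 4 5 (by decide) (by decide) rfl rfl rfl rfl
  linear_combination r1

theorem n56 : (xx 5 : Q (II k)) * xx 6 = - (xx 4 * xx 7) := by
  have r1 := rel (k := k) 4 7 5 6 0 2 4 5 (by decide) (by decide) rfl rfl rfl rfl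
  linear_combination r1

/-- the regular element -/
noncomputable def ll : Q (II k) := xx 0 + xx 7

theorem prod (h2 : (2 : k) ≠ 0) (i j : Fin 8) : ∃ (s : k) (m : Fin 8),
    (xx i : Q (II k)) * xx j = ll * (algebraMap k (Q (II k)) s * xx m) := by
  unfold ll
  fin_cases i <;> fin_cases j
  · refine ⟨1, 0, ?_⟩
    change (xx 0 : Q (II k)) * xx 0 = (xx 0 + xx 7) * (algebraMap k (Q (II k)) 1 * xx 0)
    rw [map_one]
    linear_combination -(z07 h2)
  · refine ⟨1, 1, ?_⟩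
    change (xx 0 : Q (II k)) * xx 1 = (xx 0 + xx 7) * (algebraMap k (Q (II k)) 1 * xx 1)
    rw [map_one]
    linear_combination -(z17 h2)
  · refine ⟨1, 2, ?_⟩
    change (xx 0 : Q (II k)) * xx 2 = (xx 0 + xx 7) * (algebraMap k (Q (II k)) 1 * xx 2)
    rw [map_one]
    linear_combination -(z27 h2)
  · refine ⟨1, 3, ?_⟩
    change (xx 0 : Q (II k)) * xx 3 = (xx 0 + xx 7) * (algebraMap k (Q (II k)) 1 * xx 3)
    rw [map_one]
    linear_combination -(z37 h2)
  · refine ⟨0, 0, ?_⟩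
    change (xx 0 : Q (II k)) * xx 4 = (xx 0 + xx 7) * (algebraMap k (Q (II k)) 0 * xx 0)
    rw [map_zero]
    linear_combination z04 h2
  · refine ⟨0, 0, ?_⟩
    change (xx 0 : Q (II k)) * xx 5 = (xx 0 + xx 7) * (algebraMap k (Q (II k)) 0 * xx 0)
    rw [map_zero]
    linear_combination z05 h2
  · refine ⟨0, 0, ?_⟩
    change (xx 0 : Q (II k)) * xx 6 = (xx 0 + xx 7) * (algebraMap k (Q (II k)) 0 * xx 0)
    rw [map_zero]
    linear_combination z06 h2
  · refine ⟨0, 0, ?_⟩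
    change (xx 0 : Q (II k)) * xx 7 = (xx 0 + xx 7) * (algebraMap k (Q (II k)) 0 * xx 0)
    rw [map_zero]
    linear_combination z07 h2
  · refine ⟨1, 1, ?_⟩
    change (xx 1 : Q (II k)) * xx 0 = (xx 0 + xx 7) * (algebraMap k (Q (II k)) 1 * xx 1)
    rw [map_one]
    linear_combination -(z17 h2)
  · refine ⟨-1, 2, ?_⟩
    change (xx 1 : Q (II k)) * xx 1 = (xx 0 + xx 7) * (algebraMap k (Q (II k)) (-1) * xx 2)
    rw [map_neg, map_one]
    linear_combination n11 (k := k) + z27 h2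
  · refine ⟨-1, 3, ?_⟩
    change (xx 1 : Q (II k)) * xx 2 = (xx 0 + xx 7) * (algebraMap k (Q (II k)) (-1) * xx 3)
    rw [map_neg, map_one]
    linear_combination n12 (k := k) + z37 h2
  · refine ⟨0, 0, ?_⟩
    change (xx 1 : Q (II k)) * xx 3 = (xx 0 + xx 7) * (algebraMap k (Q (II k)) 0 * xx 0)
    rw [map_zero]
    linear_combination z13 h2
  · refine ⟨0, 0, ?_⟩
    change (xx 1 : Q (II k)) * xx 4 = (xx 0 + xx 7) * (algebraMap k (Q (II k)) 0 * xx 0)
    rw [map_zero]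
    linear_combination z14 h2
  · refine ⟨0, 0, ?_⟩
    change (xx 1 : Q (II k)) * xx 5 = (xx 0 + xx 7) * (algebraMap k (Q (II k)) 0 * xx 0)
    rw [map_zero]
    linear_combination z15 h2
  · refine ⟨0, 0, ?_⟩
    change (xx 1 : Q (II k)) * xx 6 = (xx 0 + xx 7) * (algebraMap k (Q (II k)) 0 * xx 0)
    rw [map_zero]
    linear_combination z16 h2
  · refine ⟨0, 0, ?_⟩
    change (xx 1 : Q (II k)) * xx 7 = (xx 0 + xx 7) * (algebraMap k (Q (II k)) 0 * xx 0)
    rw [map_zero]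
    linear_combination z17 h2
  · refine ⟨1, 2, ?_⟩
    change (xx 2 : Q (II k)) * xx 0 = (xx 0 + xx 7) * (algebraMap k (Q (II k)) 1 * xx 2)
    rw [map_one]
    linear_combination -(z27 h2)
  · refine ⟨-1, 3, ?_⟩
    change (xx 2 : Q (II k)) * xx 1 = (xx 0 + xx 7) * (algebraMap k (Q (II k)) (-1) * xx 3)
    rw [map_neg, map_one]
    linear_combination n12 (k := k) + z37 h2
  · refine ⟨0, 0, ?_⟩
    change (xx 2 : Q (II k)) * xx 2 = (xx 0 + xx 7) * (algebraMap k (Q (II k)) 0 * xx 0)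
    rw [map_zero]
    linear_combination z22 h2
  · refine ⟨0, 0, ?_⟩
    change (xx 2 : Q (II k)) * xx 3 = (xx 0 + xx 7) * (algebraMap k (Q (II k)) 0 * xx 0)
    rw [map_zero]
    linear_combination z23 h2
  · refine ⟨0, 0, ?_⟩
    change (xx 2 : Q (II k)) * xx 4 = (xx 0 + xx 7) * (algebraMap k (Q (II k)) 0 * xx 0)
    rw [map_zero]
    linear_combination z24 h2
  · refine ⟨0, 0, ?_⟩
    change (xx 2 : Q (II k)) * xx 5 = (xx 0 + xx 7) * (algebraMap k (Q (II k)) 0 * xx 0)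
    rw [map_zero]
    linear_combination z25 h2
  · refine ⟨0, 0, ?_⟩
    change (xx 2 : Q (II k)) * xx 6 = (xx 0 + xx 7) * (algebraMap k (Q (II k)) 0 * xx 0)
    rw [map_zero]
    linear_combination z26 h2
  · refine ⟨0, 0, ?_⟩
    change (xx 2 : Q (II k)) * xx 7 = (xx 0 + xx 7) * (algebraMap k (Q (II k)) 0 * xx 0)
    rw [map_zero]
    linear_combination z27 h2
  · refine ⟨1, 3, ?_⟩
    change (xx 3 : Q (II k)) * xx 0 = (xx 0 + xx 7) * (algebraMap k (Q (II k)) 1 * xx 3)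
    rw [map_one]
    linear_combination -(z37 h2)
  · refine ⟨0, 0, ?_⟩
    change (xx 3 : Q (II k)) * xx 1 = (xx 0 + xx 7) * (algebraMap k (Q (II k)) 0 * xx 0)
    rw [map_zero]
    linear_combination z13 h2
  · refine ⟨0, 0, ?_⟩
    change (xx 3 : Q (II k)) * xx 2 = (xx 0 + xx 7) * (algebraMap k (Q (II k)) 0 * xx 0)
    rw [map_zero]
    linear_combination z23 h2
  · refine ⟨0, 0, ?_⟩
    change (xx 3 : Q (II k)) * xx 3 = (xx 0 + xx 7) * (algebraMap k (Q (II k)) 0 * xx 0)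
    rw [map_zero]
    linear_combination z33 h2
  · refine ⟨0, 0, ?_⟩
    change (xx 3 : Q (II k)) * xx 4 = (xx 0 + xx 7) * (algebraMap k (Q (II k)) 0 * xx 0)
    rw [map_zero]
    linear_combination z34 h2
  · refine ⟨0, 0, ?_⟩
    change (xx 3 : Q (II k)) * xx 5 = (xx 0 + xx 7) * (algebraMap k (Q (II k)) 0 * xx 0)
    rw [map_zero]
    linear_combination z35 h2
  · refine ⟨0, 0, ?_⟩
    change (xx 3 : Q (II k)) * xx 6 = (xx 0 + xx 7) * (algebraMap k (Q (II k)) 0 * xx 0)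
    rw [map_zero]
    linear_combination z36 h2
  · refine ⟨0, 0, ?_⟩
    change (xx 3 : Q (II k)) * xx 7 = (xx 0 + xx 7) * (algebraMap k (Q (II k)) 0 * xx 0)
    rw [map_zero]
    linear_combination z37 h2
  · refine ⟨0, 0, ?_⟩
    change (xx 4 : Q (II k)) * xx 0 = (xx 0 + xx 7) * (algebraMap k (Q (II k)) 0 * xx 0)
    rw [map_zero]
    linear_combination z04 h2
  · refine ⟨0, 0, ?_⟩
    change (xx 4 : Q (II k)) * xx 1 = (xx 0 + xx 7) * (algebraMap k (Q (II k)) 0 * xx 0)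
    rw [map_zero]
    linear_combination z14 h2
  · refine ⟨0, 0, ?_⟩
    change (xx 4 : Q (II k)) * xx 2 = (xx 0 + xx 7) * (algebraMap k (Q (II k)) 0 * xx 0)
    rw [map_zero]
    linear_combination z24 h2
  · refine ⟨0, 0, ?_⟩
    change (xx 4 : Q (II k)) * xx 3 = (xx 0 + xx 7) * (algebraMap k (Q (II k)) 0 * xx 0)
    rw [map_zero]
    linear_combination z34 h2
  · refine ⟨0, 0, ?_⟩
    change (xx 4 : Q (II k)) * xx 4 = (xx 0 + xx 7) * (algebraMap k (Q (II k)) 0 * xx 0)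
    rw [map_zero]
    linear_combination z44 h2
  · refine ⟨0, 0, ?_⟩
    change (xx 4 : Q (II k)) * xx 5 = (xx 0 + xx 7) * (algebraMap k (Q (II k)) 0 * xx 0)
    rw [map_zero]
    linear_combination z45 h2
  · refine ⟨0, 0, ?_⟩
    change (xx 4 : Q (II k)) * xx 6 = (xx 0 + xx 7) * (algebraMap k (Q (II k)) 0 * xx 0)
    rw [map_zero]
    linear_combination z46 h2
  · refine ⟨1, 4, ?_⟩
    change (xx 4 : Q (II k)) * xx 7 = (xx 0 + xx 7) * (algebraMap k (Q (II k)) 1 * xx 4)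
    rw [map_one]
    linear_combination -(z04 h2)
  · refine ⟨0, 0, ?_⟩
    change (xx 5 : Q (II k)) * xx 0 = (xx 0 + xx 7) * (algebraMap k (Q (II k)) 0 * xx 0)
    rw [map_zero]
    linear_combination z05 h2
  · refine ⟨0, 0, ?_⟩
    change (xx 5 : Q (II k)) * xx 1 = (xx 0 + xx 7) * (algebraMap k (Q (II k)) 0 * xx 0)
    rw [map_zero]
    linear_combination z15 h2
  · refine ⟨0, 0, ?_⟩
    change (xx 5 : Q (II k)) * xx 2 = (xx 0 + xx 7) * (algebraMap k (Q (II k)) 0 * xx 0)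
    rw [map_zero]
    linear_combination z25 h2
  · refine ⟨0, 0, ?_⟩
    change (xx 5 : Q (II k)) * xx 3 = (xx 0 + xx 7) * (algebraMap k (Q (II k)) 0 * xx 0)
    rw [map_zero]
    linear_combination z35 h2
  · refine ⟨0, 0, ?_⟩
    change (xx 5 : Q (II k)) * xx 4 = (xx 0 + xx 7) * (algebraMap k (Q (II k)) 0 * xx 0)
    rw [map_zero]
    linear_combination z45 h2
  · refine ⟨0, 0, ?_⟩
    change (xx 5 : Q (II k)) * xx 5 = (xx 0 + xx 7) * (algebraMap k (Q (II k)) 0 * xx 0)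
    rw [map_zero]
    linear_combination z55 h2
  · refine ⟨-1, 4, ?_⟩
    change (xx 5 : Q (II k)) * xx 6 = (xx 0 + xx 7) * (algebraMap k (Q (II k)) (-1) * xx 4)
    rw [map_neg, map_one]
    linear_combination n56 (k := k) + z04 h2
  · refine ⟨1, 5, ?_⟩
    change (xx 5 : Q (II k)) * xx 7 = (xx 0 + xx 7) * (algebraMap k (Q (II k)) 1 * xx 5)
    rw [map_one]
    linear_combination -(z05 h2)
  · refine ⟨0, 0, ?_⟩
    change (xx 6 : Q (II k)) * xx 0 = (xx 0 + xx 7) * (algebraMap k (Q (II k)) 0 * xx 0)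
    rw [map_zero]
    linear_combination z06 h2
  · refine ⟨0, 0, ?_⟩
    change (xx 6 : Q (II k)) * xx 1 = (xx 0 + xx 7) * (algebraMap k (Q (II k)) 0 * xx 0)
    rw [map_zero]
    linear_combination z16 h2
  · refine ⟨0, 0, ?_⟩
    change (xx 6 : Q (II k)) * xx 2 = (xx 0 + xx 7) * (algebraMap k (Q (II k)) 0 * xx 0)
    rw [map_zero]
    linear_combination z26 h2
  · refine ⟨0, 0, ?_⟩
    change (xx 6 : Q (II k)) * xx 3 = (xx 0 + xx 7) * (algebraMap k (Q (II k)) 0 * xx 0)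
    rw [map_zero]
    linear_combination z36 h2
  · refine ⟨0, 0, ?_⟩
    change (xx 6 : Q (II k)) * xx 4 = (xx 0 + xx 7) * (algebraMap k (Q (II k)) 0 * xx 0)
    rw [map_zero]
    linear_combination z46 h2
  · refine ⟨-1, 4, ?_⟩
    change (xx 6 : Q (II k)) * xx 5 = (xx 0 + xx 7) * (algebraMap k (Q (II k)) (-1) * xx 4)
    rw [map_neg, map_one]
    linear_combination n56 (k := k) + z04 h2
  · refine ⟨-1, 5, ?_⟩
    change (xx 6 : Q (II k)) * xx 6 = (xx 0 + xx 7) * (algebraMap k (Q (II k)) (-1) * xx 5)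
    rw [map_neg, map_one]
    linear_combination n66 (k := k) + z05 h2
  · refine ⟨1, 6, ?_⟩
    change (xx 6 : Q (II k)) * xx 7 = (xx 0 + xx 7) * (algebraMap k (Q (II k)) 1 * xx 6)
    rw [map_one]
    linear_combination -(z06 h2)
  · refine ⟨0, 0, ?_⟩
    change (xx 7 : Q (II k)) * xx 0 = (xx 0 + xx 7) * (algebraMap k (Q (II k)) 0 * xx 0)
    rw [map_zero]
    linear_combination z07 h2
  · refine ⟨0, 0, ?_⟩
    change (xx 7 : Q (II k)) * xx 1 = (xx 0 + xx 7) * (algebraMap k (Q (II k)) 0 * xx 0)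
    rw [map_zero]
    linear_combination z17 h2
  · refine ⟨0, 0, ?_⟩
    change (xx 7 : Q (II k)) * xx 2 = (xx 0 + xx 7) * (algebraMap k (Q (II k)) 0 * xx 0)
    rw [map_zero]
    linear_combination z27 h2
  · refine ⟨0, 0, ?_⟩
    change (xx 7 : Q (II k)) * xx 3 = (xx 0 + xx 7) * (algebraMap k (Q (II k)) 0 * xx 0)
    rw [map_zero]
    linear_combination z37 h2
  · refine ⟨1, 4, ?_⟩
    change (xx 7 : Q (II k)) * xx 4 = (xx 0 + xx 7) * (algebraMap k (Q (II k)) 1 * xx 4)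
    rw [map_one]
    linear_combination -(z04 h2)
  · refine ⟨1, 5, ?_⟩
    change (xx 7 : Q (II k)) * xx 5 = (xx 0 + xx 7) * (algebraMap k (Q (II k)) 1 * xx 5)
    rw [map_one]
    linear_combination -(z05 h2)
  · refine ⟨1, 6, ?_⟩
    change (xx 7 : Q (II k)) * xx 6 = (xx 0 + xx 7) * (algebraMap k (Q (II k)) 1 * xx 6)
    rw [map_one]
    linear_combination -(z06 h2)
  · refine ⟨1, 7, ?_⟩
    change (xx 7 : Q (II k)) * xx 7 = (xx 0 + xx 7) * (algebraMap k (Q (II k)) 1 * xx 7)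
    rw [map_one]
    linear_combination -(z07 h2)

end Pool.Agent.V113.Gol2
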