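import Pool.Agent.V113.Gol2.Hank

/-!
# Normal forms and regularity
-/

set_option autoImplicit false

namespace Pool.Agent.V113.Gol2

open Pool.Agent.V113.Gol MvPolynomial

universe u

variable {k : Type u} [Field k]

/-- The elements in normal form. -/
def NF (r : Q (II k)) : Prop := ∃ (c : k) (p : Fin 8 → Polynomial k),
  r = algebraMap k (Q (II k)) c + ∑ i, xx i * Polynomial.aeval ll (p i)

theorem NF_add {r s : Q (II k)} (hr : NF r) (hs : NF s) : NF (r + s) := by
  obtain ⟨c, p, rfl⟩ := hr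
  obtain ⟨d, q, rfl⟩ := hs
  refine ⟨c + d, fun i => p i + q i, ?_⟩
  rw [map_add]
  simp only [map_add, mul_add, Finset.sum_add_distrib]
  abel

theorem NF_C (c : k) : NF (algebraMap k (Q (II k)) c) := by
  refine ⟨c, fun _ => 0, ?_⟩
  simp

theorem NF_zero : NF (0 : Q (II k)) := by
  have := NF_C (0 : k)
  rwa [map_zero] at this

theorem NF_x (m : Fin 8) (q : Polynomial k) :
    NF (xx m * Polynomial.aeval ll q : Q (II k)) := by
  classical
  refine ⟨0, Pi.single m q, ?_⟩
  rw [map_zero, zero_add, Finset.sum_eq_single m]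
  · rw [Pi.single_eq_same]
  · intro b _ hb
    rw [Pi.single_eq_of_ne hb, map_zero, mul_zero]
  · intro h
    exact absurd (Finset.mem_univ _) h

theorem NF_sum {ι : Type} (s : Finset ι) (f : ι → Q (II k)) (h : ∀ i ∈ s, NF (f i)) :
    NF (∑ i ∈ s, f i) := by
  classical
  induction s using Finset.induction_on with
  | empty => rw [Finset.sum_empty]; exact NF_zero
  | insert a s ha ih =>
    rw [Finset.sum_insert ha]
    exact NF_add (h a (Finset.mem_insert_self a s))
      (ih fun i hi => h i (Finset.mem_insert_of_mem hi))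

theorem NF_mul (h2 : (2 : k) ≠ 0) (j : Fin 8) {r : Q (II k)} (hr : NF r) : NF (r * xx j) := by
  obtain ⟨c, p, rfl⟩ := hr
  rw [add_mul, Finset.sum_mul]
  refine NF_add ?_ (NF_sum _ _ fun i _ => ?_)
  · have := NF_x j (Polynomial.C c)
    rwa [Polynomial.aeval_C, mul_comm] at this
  · obtain ⟨s, m, h⟩ := prod h2 i j
    have h3 : (xx i : Q (II k)) * Polynomial.aeval ll (p i) * xx j =
        xx m * Polynomial.aeval ll (Polynomial.C s * Polynomial.X * p i) := by
      rw [map_mul, map_mul, Polynomial.aeval_C, Polynomial.aeval_X]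
      linear_combination Polynomial.aeval ll (p i) * h
    rw [h3]
    exact NF_x _ _

theorem NF_all (h2 : (2 : k) ≠ 0) (r : Q (II k)) : NF r := by
  obtain ⟨F, rfl⟩ := Ideal.Quotient.mk_surjective r
  induction F using MvPolynomial.induction_on with
  | C a => exact NF_C a
  | add p q hp hq => rw [map_add]; exact NF_add hp hq
  | mul_X p n hp => rw [map_mul]; exact NF_mul h2 n hp

/-- the model -/
noncomputable def uu (a : ℕ) : Polynomial k :=
  if a = 0 then Polynomial.X else if a = 1 then Polynomial.X else if a = 2 then - Polynomial.X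
    else if a = 3 then Polynomial.X else 0

/-- the model -/
noncomputable def gg (a : ℕ) : Polynomial (Polynomial k) :=
  Polynomial.C (uu a) * Polynomial.X ^ a

theorem gg_dvd (a b : ℕ) (h : 4 ≤ a + b) :
    (Polynomial.X : Polynomial (Polynomial k)) ^ 4 ∣ gg a * gg b := by
  refine (pow_dvd_pow _ h).trans ?_
  rw [pow_add]
  exact mul_dvd_mul (Dvd.intro_left _ rfl) (Dvd.intro_left _ rfl)

theorem gg_rel (i i' j j' : ℕ) (hi : i < i') (hj : j < j') :
    (Polynomial.X : Polynomial (Polynomial k)) ^ 4 ∣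
      gg (i + j) * gg (i' + j') + gg (i + j') * gg (i' + j) := by
  by_cases h : 4 ≤ (i + j) + (i' + j')
  · exact dvd_add (gg_dvd _ _ h) (gg_dvd _ _ (by omega))
  · have h3 : (i = 0 ∧ i' = 1 ∧ j = 0 ∧ j' = 1) ∨ (i = 0 ∧ i' = 1 ∧ j = 0 ∧ j' = 2) ∨
        (i = 0 ∧ i' = 2 ∧ j = 0 ∧ j' = 1) := by omega
    have e : gg (i + j) * gg (i' + j') + gg (i + j') * gg (i' + j) =
        (0 : Polynomial (Polynomial k)) := by
      rcases h3 with ⟨rfl, rfl, rfl, rfl⟩ | ⟨rfl, rfl, rfl, rfl⟩ | ⟨rfl, rfl, rfl, rfl⟩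
      all_goals
        simp only [gg, uu]
        norm_num
        try ring
    rw [e]
    exact dvd_zero _

/-- first model map -/
noncomputable def ψA : MvPolynomial (Fin 8) k →ₐ[k] Polynomial (Polynomial k) :=
  aeval fun i => gg i.1

/-- second model map -/
noncomputable def ψB : MvPolynomial (Fin 8) k →ₐ[k] Polynomial (Polynomial k) :=
  aeval fun i => gg (7 - i.1)

theorem ψA_dvd (f : MvPolynomial (Fin 8) k) (hf : f ∈ II k) :
    (Polynomial.X : Polynomial (Polynomial k)) ^ 4 ∣ ψA f := by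
  rw [← Ideal.mem_span_singleton, ← Ideal.mem_comap]
  refine Ideal.span_le.2 ?_ hf
  rintro _ ⟨i, i', j, j', hi, hj, rfl⟩
  rw [SetLike.mem_coe, Ideal.mem_comap, Ideal.mem_span_singleton,
    HH_apply _ _ (by omega), HH_apply _ _ (by omega), HH_apply _ _ (by omega),
    HH_apply _ _ (by omega), map_add, map_mul, map_mul]
  simp only [ψA, aeval_X]
  exact gg_rel _ _ _ _ hi hj

theorem ψB_dvd (f : MvPolynomial (Fin 8) k) (hf : f ∈ II k) :
    (Polynomial.X : Polynomial (Polynomial k)) ^ 4 ∣ ψB f := by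
  rw [← Ideal.mem_span_singleton, ← Ideal.mem_comap]
  refine Ideal.span_le.2 ?_ hf
  rintro _ ⟨i, i', j, j', hi, hj, rfl⟩
  rw [SetLike.mem_coe, Ideal.mem_comap, Ideal.mem_span_singleton,
    HH_apply _ _ (by omega), HH_apply _ _ (by omega), HH_apply _ _ (by omega),
    HH_apply _ _ (by omega), map_add, map_mul, map_mul]
  simp only [ψB, aeval_X]
  have hi2 : i.1 < i'.1 := hi
  have hj2 : j.1 < j'.1 := hj
  have h := gg_rel (k := k) (2 - i'.1) (2 - i.1) (5 - j'.1) (5 - j.1) (by omega) (by omega)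
  have e1 : 2 - i'.1 + (5 - j'.1) = 7 - (i'.1 + j'.1) := by omega
  have e2 : 2 - i.1 + (5 - j.1) = 7 - (i.1 + j.1) := by omega
  have e3 : 2 - i'.1 + (5 - j.1) = 7 - (i'.1 + j.1) := by omega
  have e4 : 2 - i.1 + (5 - j'.1) = 7 - (i.1 + j'.1) := by omega
  rw [e1, e2, e3, e4] at h
  rw [mul_comm (gg (7 - (i.1 + j.1))), mul_comm (gg (7 - (i.1 + j'.1)))]
  exact h


theorem aeval_CX (q : Polynomial k) :
    Polynomial.aeval (Polynomial.C Polynomial.X : Polynomial (Polynomial k)) q =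
      Polynomial.C q := by
  induction q using Polynomial.induction_on' with
  | add p q hp hq => rw [map_add, hp, hq, map_add]
  | monomial n a =>
    rw [Polynomial.aeval_monomial, ← Polynomial.C_pow, ← Polynomial.C_mul_X_pow_eq_monomial,
      Polynomial.C_mul]
    rfl

theorem ψA_L : ψA (X 0 + X 7 : MvPolynomial (Fin 8) k) = Polynomial.C Polynomial.X := by
  simp only [ψA, map_add, aeval_X, gg, uu]
  norm_num

theorem ψB_L : ψB (X 0 + X 7 : MvPolynomial (Fin 8) k) = Polynomial.C Polynomial.X := by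
  simp only [ψB, map_add, aeval_X, gg, uu]
  norm_num

theorem coeff_gg (a : ℕ) (q : Polynomial k) (d : ℕ) :
    (gg a * Polynomial.C q).coeff d = if d = a then uu a * q else 0 := by
  have h : gg a * Polynomial.C q = Polynomial.C (uu a * q) * Polynomial.X ^ a := by
    rw [gg, Polynomial.C_mul]
    ring
  rw [h, Polynomial.coeff_C_mul_X_pow]

theorem coeff_sum' (c : k) (p : Fin 8 → Polynomial k) (d : ℕ) :
    (Polynomial.C Polynomial.X *
      (Polynomial.C (Polynomial.C c) + ∑ i : Fin 8, gg i.1 * Polynomial.C (p i))).coeff d =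
      Polynomial.X * ((if d = 0 then Polynomial.C c else 0) +
        ∑ i : Fin 8, if d = i.1 then uu i.1 * p i else 0) := by
  rw [Polynomial.coeff_C_mul, Polynomial.coeff_add, Polynomial.finsetSum_coeff,
    Polynomial.coeff_C]
  simp only [coeff_gg]

theorem key (c : k) (p : Fin 8 → Polynomial k)
    (h : (Polynomial.X : Polynomial (Polynomial k)) ^ 4 ∣ Polynomial.C Polynomial.X *
      (Polynomial.C (Polynomial.C c) + ∑ i : Fin 8, gg i.1 * Polynomial.C (p i))) :
    c = 0 ∧ p 0 = 0 ∧ p 1 = 0 ∧ p 2 = 0 ∧ p 3 = 0 := by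
  rw [Polynomial.X_pow_dvd_iff] at h
  have hX : (Polynomial.X : Polynomial k) ≠ 0 := Polynomial.X_ne_zero
  have h0 := h 0 (by norm_num)
  have h1 := h 1 (by norm_num)
  have h2 := h 2 (by norm_num)
  have h3 := h 3 (by norm_num)
  rw [coeff_sum', mul_eq_zero, or_iff_right hX, Fin.sum_univ_eight] at h0 h1 h2 h3
  simp [uu, hX] at h0 h1 h2 h3
  have hc : c = 0 := by
    have := congrArg (Polynomial.coeff · 0) h0
    simpa using this
  subst hc
  rw [map_zero, zero_add, mul_eq_zero, or_iff_right hX] at h0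
  exact ⟨rfl, h0, h1, h2, h3⟩

theorem algMap_CC (c : k) : algebraMap k (Polynomial (Polynomial k)) c =
    Polynomial.C (Polynomial.C c) := by
  rw [IsScalarTower.algebraMap_apply k (Polynomial k) (Polynomial (Polynomial k)),
    Polynomial.algebraMap_eq, Polynomial.algebraMap_eq]

theorem ψA_C (c : k) : ψA (C c : MvPolynomial (Fin 8) k) = Polynomial.C (Polynomial.C c) := by
  rw [ψA, aeval_C, algMap_CC]

theorem ψB_C (c : k) : ψB (C c : MvPolynomial (Fin 8) k) = Polynomial.C (Polynomial.C c) := by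
  rw [ψB, aeval_C, algMap_CC]

theorem ψA_F (c : k) (p : Fin 8 → Polynomial k) :
    ψA (C c + ∑ i, X i * Polynomial.aeval (X 0 + X 7 : MvPolynomial (Fin 8) k) (p i)) =
      Polynomial.C (Polynomial.C c) + ∑ i : Fin 8, gg i.1 * Polynomial.C (p i) := by
  rw [map_add, map_sum, ψA_C]
  refine congrArg (fun t => Polynomial.C (Polynomial.C c) + t) ?_
  refine Finset.sum_congr rfl fun i _ => ?_
  have e6 : ψA (X i : MvPolynomial (Fin 8) k) = gg i.1 := by rw [ψA, aeval_X]
  rw [map_mul, ← Polynomial.aeval_algHom_apply, ψA_L, aeval_CX, e6]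

theorem ψB_F (c : k) (p : Fin 8 → Polynomial k) :
    ψB (C c + ∑ i, X i * Polynomial.aeval (X 0 + X 7 : MvPolynomial (Fin 8) k) (p i)) =
      Polynomial.C (Polynomial.C c) + ∑ i : Fin 8, gg i.1 * Polynomial.C (p (Fin.rev i)) := by
  rw [map_add, map_sum, ψB_C, ← Equiv.sum_comp Fin.revPerm]
  refine congrArg (fun t => Polynomial.C (Polynomial.C c) + t) ?_
  refine Finset.sum_congr rfl fun i _ => ?_
  have e6 : ψB (X (Fin.revPerm i) : MvPolynomial (Fin 8) k) = gg i.1 := by
    rw [ψB, aeval_X, Fin.revPerm_apply, Fin.val_rev]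
    congr 1
    omega
  rw [map_mul, ← Polynomial.aeval_algHom_apply, ψB_L, aeval_CX, e6, Fin.revPerm_apply]

theorem ll_reg (h2 : (2 : k) ≠ 0) (r : Q (II k)) (h : ll * r = 0) : r = 0 := by
  obtain ⟨c, p, rfl⟩ := NF_all h2 r
  have e1 : Ideal.Quotient.mk (II k) (X 0 + X 7) = ll := by
    rw [map_add]
    rfl
  have e3 : ∀ q : Polynomial k, Ideal.Quotient.mk (II k)
      (Polynomial.aeval (X 0 + X 7 : MvPolynomial (Fin 8) k) q) = Polynomial.aeval ll q := by
    intro q
    rw [← e1]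
    exact (Polynomial.aeval_algHom_apply (Ideal.Quotient.mkₐ k (II k)) _ q).symm
  have e2 : Ideal.Quotient.mk (II k)
      (C c + ∑ i, X i * Polynomial.aeval (X 0 + X 7 : MvPolynomial (Fin 8) k) (p i)) =
      algebraMap k (Q (II k)) c + ∑ i, xx i * Polynomial.aeval ll (p i) := by
    rw [map_add, map_sum]
    simp only [map_mul, e3]
    rfl
  have h3 : (X 0 + X 7) *
      (C c + ∑ i, X i * Polynomial.aeval (X 0 + X 7 : MvPolynomial (Fin 8) k) (p i)) ∈ II k := by
    rw [← Ideal.Quotient.eq_zero_iff_mem, map_mul, e1, e2]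
    exact h
  have hA := ψA_dvd _ h3
  have hB := ψB_dvd _ h3
  rw [map_mul, ψA_L, ψA_F] at hA
  rw [map_mul, ψB_L, ψB_F] at hB
  obtain ⟨hc, a0, a1, a2, a3⟩ := key c p hA
  obtain ⟨_, b0, b1, b2, b3⟩ := key c (fun i => p (Fin.rev i)) hB
  have r0 : Fin.rev (0 : Fin 8) = 7 := by decide
  have r1 : Fin.rev (1 : Fin 8) = 6 := by decide
  have r2 : Fin.rev (2 : Fin 8) = 5 := by decide
  have r3 : Fin.rev (3 : Fin 8) = 4 := by decide
  rw [r0] at b0
  rw [r1] at b1
  rw [r2] at b2
  rw [r3] at b3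
  rw [hc, Fin.sum_univ_eight, a0, a1, a2, a3, b0, b1, b2, b3]
  simp

theorem II_le : II k ≤ idealOfVars (Fin 8) k ^ 2 := by
  refine Ideal.span_le.2 ?_
  rintro _ ⟨i, i', j, j', hi, hj, rfl⟩
  have hX : ∀ i : Fin 8, (X i : MvPolynomial (Fin 8) k) ∈ idealOfVars (Fin 8) k :=
    fun i => Ideal.subset_span ⟨i, rfl⟩
  rw [pow_two]
  exact Ideal.add_mem _ (Ideal.mul_mem_mul (hX _) (hX _)) (Ideal.mul_mem_mul (hX _) (hX _))

theorem minimal_II (r : Fin 8 → Q (II k)) (h : ∑ j, xx j * r j ∈ mR (II k) * mR (II k))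
    (j : Fin 8) : r j ∈ mR (II k) := by
  choose F hF using fun j => Ideal.Quotient.mk_surjective (r j)
  have h1 : Ideal.Quotient.mk (II k) (∑ j, X j * F j) ∈
      (idealOfVars (Fin 8) k ^ 2).map (Ideal.Quotient.mk (II k)) := by
    rw [Ideal.map_pow, pow_two, map_sum]
    simp only [map_mul, hF]
    exact h
  rw [Ideal.mem_quotient_iff_mem II_le, mem_sq_iff] at h1
  rw [← hF j]
  refine Ideal.mem_map_of_mem _ ?_
  rw [mem_one_iff]
  have h3 := h1.2 j
  rw [coeff_sum] at h3
  simp only [coeff_XF_one] at h3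
  simpa using h3

theorem sq_le (h2 : (2 : k) ≠ 0) (r : Q (II k)) (h : r ∈ mR (II k) * mR (II k)) :
    ∃ c, r = ll * c := by
  have hm : mR (II k) = Ideal.span (Set.range (xx (k := k))) := by
    rw [mR, idealOfVars, Ideal.map_span, ← Set.range_comp]
    rfl
  rw [hm, Ideal.span_mul_span', ← Set.image2_mul] at h
  refine Submodule.span_induction ?_ ?_ ?_ ?_ h
  · rintro _ ⟨_, ⟨i, rfl⟩, _, ⟨j, rfl⟩, rfl⟩
    obtain ⟨s, m, h⟩ := prod h2 i j
    exact ⟨_, h⟩
  · exact ⟨0, by rw [mul_zero]⟩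
  · rintro _ _ _ _ ⟨a, rfl⟩ ⟨b, rfl⟩
    exact ⟨a + b, by rw [mul_add]⟩
  · rintro s _ _ ⟨a, rfl⟩
    exact ⟨s * a, by rw [smul_eq_mul]; ring⟩

theorem golod_II (h2 : (2 : k) ≠ 0) : HasTrivialMassey (xx (k := k)) k := by
  have hlin : Fintype.linearCombination (Q (II k)) (xx (k := k))
      (Pi.single 0 1 + Pi.single 7 1) = ll := by
    rw [Fintype.linearCombination_apply]
    simp [Fin.sum_univ_eight, ll, Pi.single_apply]
  refine golod_reg k (xx (k := k)) (Pi.single 0 1 + Pi.single 7 1) (mR (II k)) ?_ ?_ ?_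
  · rw [hlin]
    exact ll_reg h2
  · rw [hlin]
    exact sq_le h2
  · exact minimal_II

end Pool.Agent.V113.Gol2
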