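import Pool.Agent.V113.Gol.Stmt

/-!
# Hankel matrices and the ideals of their two by two permanents
-/

set_option autoImplicit false

namespace Pool.Agent.V113.Gol2.Stmt

open MvPolynomial

universe u

/-- The generic `m × n` Hankel matrix: the entry in position `(i, j)` (counted from `0`) is the
variable number `i + j` (counted from `0`). -/
noncomputable def hankel (k : Type u) [Field k] (m n : ℕ) :
    Matrix (Fin m) (Fin n) (MvPolynomial (Fin (m + n - 1)) k) :=
  fun i j => X ⟨i.1 + j.1, by omega⟩

/-- The ideal of the permanents of the two by two submatrices. -/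
def P2 {A : Type u} [CommRing A] {m n : ℕ} (M : Matrix (Fin m) (Fin n) A) : Ideal A :=
  Ideal.span {f | ∃ i i' : Fin m, ∃ j j' : Fin n, i < i' ∧ j < j' ∧
    f = M i j * M i' j' + M i j' * M i' j}

end Pool.Agent.V113.Gol2.Stmt
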